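import Mathlib

set_option autoImplicit false

namespace Pool.Agent.Results.MP_68af1b_co.NonReal

open Finset Polynomial

/-- Partitions of an `n`-set into exactly `k` nonempty blocks, each of size at most `m`. -/
noncomputable def rStirling (n k m : ℕ) : ℕ :=
  Nat.card {P : Finpartition (univ : Finset (Fin n)) //
    P.parts.card = k ∧ ∀ b ∈ P.parts, b.card ≤ m}

/-- The restricted Bell polynomial. -/
noncomputable def rBell (n m : ℕ) : ℝ[X] := ∑ k ∈ range (n + 1), C (rStirling n k m : ℝ) * X ^ k

section comb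
variable {α : Type} [DecidableEq α]

noncomputable def wt {s : Finset α} (P : Finpartition s) : ℝ[X] :=
  if ∀ b ∈ P.parts, b.card ≤ 5 then X ^ P.parts.card else 0

noncomputable def G (s : Finset α) : ℝ[X] := ∑ P : Finpartition s, wt P

noncomputable def g : ℕ → ℝ[X]
  | 0 => 1
  | n + 1 => X * ∑ j ∈ range 5, C (n.choose j : ℝ) * g (n - j)

lemma fiber (s b : Finset α) (a : α) (hb : b ⊆ s) (ha : a ∈ b) :
    ∑ P : Finpartition s with P.part a = b, wt P = if b.card ≤ 5 then X * G (s \ b) else 0 := by
  have hne : b ≠ ⊥ := ne_empty_of_mem ha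
  have hd : Disjoint (s \ b) b := sdiff_disjoint
  have hs : (s \ b) ⊔ b = s := sdiff_union_of_subset hb
  have key : ∑ P : Finpartition s with P.part a = b, wt P =
      ∑ Q : Finpartition (s \ b), wt (Q.extend hne hd hs) := by
    symm
    refine sum_bij (fun Q _ => Q.extend hne hd hs) ?_ ?_ ?_ (fun _ _ => rfl)
    · intro Q _
      simp only [mem_filter, mem_univ, true_and]
      exact Finpartition.part_eq_of_mem _ (by simp [Finpartition.extend]) ha
    · intro Q _ Q' _ h
      have h1 := congrArg Finpartition.parts h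
      have n1 : ∀ R : Finpartition (s \ b), b ∉ R.parts := fun R hR =>
        (mem_sdiff.1 (R.subset hR ha)).2 ha
      simp only [Finpartition.extend] at h1
      ext1
      rw [← erase_insert (n1 Q), h1, erase_insert (n1 Q')]
    · intro P hP
      simp only [mem_filter, mem_univ, true_and] at hP
      have hbP : b ∈ P.parts := hP ▸ P.part_mem.2 (hb ha)
      refine ⟨P.ofSubset (erase_subset b P.parts) ?_, mem_univ _, ?_⟩
      · ext x
        simp only [mem_sup, mem_erase, id, mem_sdiff]
        constructor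
        · rintro ⟨t, ⟨h1, h2⟩, h3⟩
          exact ⟨P.subset h2 h3, fun h4 => h1 (P.eq_of_mem_parts h2 hbP h3 h4)⟩
        · rintro ⟨h1, h2⟩
          obtain ⟨t, h3, h4⟩ := P.exists_mem h1
          exact ⟨t, ⟨fun h => h2 (h ▸ h4), h3⟩, h4⟩
      · ext1
        simp only [Finpartition.extend, Finpartition.ofSubset]
        exact insert_erase hbP
  rw [key]
  split_ifs with h5
  · rw [G, mul_sum]
    refine sum_congr rfl fun Q _ => ?_
    simp only [wt, Finpartition.card_extend]
    have : (∀ c ∈ (Q.extend hne hd hs).parts, c.card ≤ 5) ↔ ∀ c ∈ Q.parts, c.card ≤ 5 := by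
      simp [Finpartition.extend, h5]
    simp only [this]
    split_ifs
    · ring
    · simp
  · refine sum_eq_zero fun Q _ => ?_
    rw [wt, if_neg]
    intro h
    exact h5 (h b (by simp [Finpartition.extend]))

lemma G_eq : ∀ (n : ℕ) (s : Finset α), s.card = n → G s = g n := by
  intro n
  induction n using Nat.strong_induction_on with
  | _ n ih =>
  intro s hs
  rcases n with _ | n
  · obtain rfl := card_eq_zero.1 hs
    have : Unique (Finpartition (∅ : Finset α)) := inferInstanceAs (Unique (Finpartition ⊥))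
    rw [G, Fintype.sum_unique, g]
    have h : (default : Finpartition (∅ : Finset α)).parts = ∅ :=
      Finpartition.parts_eq_empty_iff.2 rfl
    simp [wt, h]
  obtain ⟨a, ha⟩ : s.Nonempty := card_pos.1 (by omega)
  have h1 : G s = ∑ t ∈ (s.erase a).powerset,
      ∑ P : Finpartition s with (P.part a).erase a = t, wt P := by
    rw [G, sum_fiberwise_of_maps_to]
    intro P _
    exact mem_powerset.2 (erase_subset_erase _ (P.part_subset a))
  have hc : (s.erase a).card = n := by rw [card_erase_of_mem ha, hs]; rfl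
  have h2 : ∀ t ∈ (s.erase a).powerset, ∑ P : Finpartition s with (P.part a).erase a = t, wt P =
      (fun j => if j < 5 then X * g (n - j) else 0) t.card := by
    intro t ht
    have ht' := mem_powerset.1 ht
    have hat : a ∉ t := fun h => notMem_erase a s (ht' h)
    have hsub : insert a t ⊆ s := insert_subset ha (ht'.trans (erase_subset _ _))
    have hf : (univ.filter fun P : Finpartition s => (P.part a).erase a = t) =
        univ.filter fun P : Finpartition s => P.part a = insert a t := by
      refine filter_congr fun P _ => ⟨fun h => ?_, fun h => ?_⟩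
      · rw [← h, insert_erase (P.mem_part_self.2 ha)]
      · rw [h, erase_insert hat]
    have hle := card_le_card ht'
    rw [hf, fiber s _ a hsub (mem_insert_self _ _), card_insert_of_notMem hat,
      ih (n - t.card) (by omega) _
        (by rw [card_sdiff_of_subset hsub, card_insert_of_notMem hat]; omega)]
    rfl
  rw [h1, sum_congr rfl h2, sum_powerset_apply_card (fun j => if j < 5 then X * g (n - j) else 0),
    hc, g, mul_sum]
  have h3 : ∀ N, n + 1 ≤ N → 5 ≤ N →
      ∑ j ∈ range (n + 1), n.choose j • (if j < 5 then X * g (n - j) else 0) =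
        ∑ j ∈ range 5, X * (C (n.choose j : ℝ) * g (n - j)) := by
    intro N hN1 hN2
    rw [sum_subset (range_subset_range.2 hN1), ← sum_subset (range_subset_range.2 hN2)]
    · refine sum_congr rfl fun j hj => ?_
      rw [if_pos (mem_range.1 hj), nsmul_eq_mul, map_natCast]; ring
    · intro j _ hj
      rw [if_neg (by simpa using hj), smul_zero]
    · intro j _ hj
      rw [Nat.choose_eq_zero_of_lt (by simpa using hj), zero_smul]
  exact h3 (n + 6) (by omega) (by omega)

end comb

lemma rBell_eq (n : ℕ) : rBell n 5 = g n := by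
  rw [← G_eq n (univ : Finset (Fin n)) (by simp), G, rBell,
    ← sum_fiberwise_of_maps_to (s := univ) (t := range (n + 1))
      (g := fun P : Finpartition (univ : Finset (Fin n)) => P.parts.card)]
  · refine sum_congr rfl fun k _ => ?_
    rw [rStirling, Nat.card_eq_fintype_card, Fintype.card_subtype, map_natCast, ← nsmul_eq_mul,
      ← sum_const, ← filter_filter, sum_filter]
    refine sum_congr rfl fun P hP => ?_
    rw [wt, (mem_filter.1 hP).2]
    congr
  · intro P _
    have := P.card_parts_le_card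
    simp only [card_univ, Fintype.card_fin] at this
    exact mem_range.2 (by omega)

lemma laguerre (x : ℝ) : ∀ (n : ℕ) (p : ℝ[X]), p.natDegree = n →
    (∀ z : ℂ, aeval z p = 0 → z.im = 0) →
    p.eval x * (derivative (derivative p)).eval x ≤ (derivative p).eval x ^ 2 := by
  intro n
  induction n with
  | zero =>
    intro p hp _
    rw [eq_C_of_natDegree_eq_zero hp]; simp
  | succ n ih =>
    intro p hp h
    have hd : p.degree ≠ 0 := fun h0 => by
      rw [natDegree_eq_zero_iff_degree_le_zero.2 h0.le] at hp; omega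
    obtain ⟨z, hz⟩ := IsAlgClosed.exists_aeval_eq_zero ℂ p hd
    have hzr : z = algebraMap ℝ ℂ z.re := Complex.ext (by simp) (by simp [h z hz])
    have hr : p.IsRoot z.re := by
      rw [hzr, aeval_algebraMap_apply] at hz
      simpa using hz
    obtain ⟨q, rfl⟩ := dvd_iff_isRoot.2 hr
    have hq0 : q ≠ 0 := by rintro rfl; simp at hp
    rw [natDegree_mul (X_sub_C_ne_zero _) hq0, natDegree_X_sub_C] at hp
    have := ih q (by omega) fun w hw => h w (by rw [map_mul, hw, mul_zero])
    simp only [derivative_mul, derivative_sub, derivative_X, derivative_C, derivative_add,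
      eval_mul, eval_add, eval_sub, eval_X, eval_C, sub_zero, one_mul]
    nlinarith [mul_le_mul_of_nonneg_left this (sq_nonneg (x - z.re)), sq_nonneg (q.eval x)]

abbrev T : Type := ℤ × ℤ × ℤ

def ch (n j : ℕ) : ℤ := (n.descFactorial j / j.factorial : ℕ)

def comb (n : ℕ) (a b c d e : ℤ) : ℤ :=
  ch n 0 * a + ch n 1 * b + ch n 2 * c + ch n 3 * d + ch n 4 * e

def nxt (n : ℕ) (a b c d e : T) : T :=
  (-1913 * comb n a.1 b.1 c.1 d.1 e.1,
    comb n a.1 b.1 c.1 d.1 e.1 + -1913 * comb n a.2.1 b.2.1 c.2.1 d.2.1 e.2.1,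
    2 * comb n a.2.1 b.2.1 c.2.1 d.2.1 e.2.1 + -1913 * comb n a.2.2 b.2.2 c.2.2 d.2.2 e.2.2)

def fN (n : ℕ) (k : ℕ → T) : T :=
  match n with
  | 0 => k 0
  | m + 1 => k (m + 1)

def fZ (z : ℤ) (k : ℤ → T) : T :=
  match z with
  | Int.ofNat n => fN n fun m => k (Int.ofNat m)
  | Int.negSucc n => fN n fun m => k (Int.negSucc m)

lemma fN_eq (n : ℕ) (k : ℕ → T) : fN n k = k n := by cases n <;> rfl

lemma fZ_eq (z : ℤ) (k : ℤ → T) : fZ z k = k z := by cases z <;> simp only [fZ, fN_eq]

def go : ℕ → ℕ → T → T → T → T → T → T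
  | 0, _, a, _, _, _, _ => a
  | f + 1, n, a, b, c, d, e => fN (n + 1) fun n' => fZ (nxt n a b c d e).1 fun u =>
      fZ (nxt n a b c d e).2.1 fun v => fZ (nxt n a b c d e).2.2 fun w =>
        go f n' (u, v, w) a b c d

def Rel (t : T) (n : ℕ) : Prop :=
  (t.1 : ℝ) = (g n).eval (-1913) ∧ (t.2.1 : ℝ) = (derivative (g n)).eval (-1913) ∧
    (t.2.2 : ℝ) = (derivative (derivative (g n))).eval (-1913)

lemma go_rel : ∀ (f n : ℕ) (a b c d e : T), Rel a n → Rel b (n - 1) → Rel c (n - 2) →
    Rel d (n - 3) → Rel e (n - 4) → Rel (go f n a b c d e) (n + f) := by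
  intro f
  induction f with
  | zero => intro n a b c d e h _ _ _ _; exact h
  | succ f ih =>
    intro n a b c d e ha hb hc hd he
    rw [go, fN_eq, fZ_eq, fZ_eq, fZ_eq, show n + (f + 1) = n + 1 + f by omega]
    refine ih _ _ _ _ _ _ ?_ ha hb hc hd
    obtain ⟨a1, a2, a3⟩ := ha
    obtain ⟨b1, b2, b3⟩ := hb
    obtain ⟨c1, c2, c3⟩ := hc
    obtain ⟨d1, d2, d3⟩ := hd
    obtain ⟨e1, e2, e3⟩ := he
    have hch : ∀ j, ((ch n j : ℤ) : ℝ) = n.choose j := fun j => by
      rw [ch, ← Nat.choose_eq_descFactorial_div_factorial]; simp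
    simp only [Rel, nxt, comb, g, sum_range_succ, sum_range_zero, zero_add, derivative_mul,
      derivative_add, derivative_X, derivative_C, eval_mul, eval_add, eval_X,
      eval_C, zero_mul, one_mul, Nat.sub_zero]
    push_cast
    simp only [hch, a1, a2, a3, b1, b2, b3, c1, c2, c3, d1, d2, d3, e1, e2, e3]
    refine ⟨trivial, trivial, by ring⟩

def fin : T := go 740 0 (1, 0, 0) (1, 0, 0) (1, 0, 0) (1, 0, 0) (1, 0, 0)

set_option maxRecDepth 1000000 in
lemma fin_bad : fin.2.1 ^ 2 < fin.1 * fin.2.2 := by decide +kernel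

theorem result : ∃ m n : ℕ, 1 ≤ m ∧ m ≠ 3 ∧ m ≠ 4 ∧ 1 ≤ n ∧
    ∃ z : ℂ, aeval z (rBell n m) = 0 ∧ z.im ≠ 0 := by
  refine ⟨5, 740, by norm_num, by norm_num, by norm_num, by norm_num, ?_⟩
  by_contra h
  push Not at h
  rw [rBell_eq] at h
  have h0 : Rel (1, 0, 0) 0 := by simp [Rel, g]
  obtain ⟨h1, h2, h3⟩ : Rel fin (0 + 740) := go_rel 740 0 _ _ _ _ _ h0 h0 h0 h0 h0
  have h4 := laguerre (-1913) _ _ rfl h
  rw [← h1, ← h2, ← h3] at h4
  have h5 : ((fin.2.1 ^ 2 : ℤ) : ℝ) < (fin.1 * fin.2.2 : ℤ) := by exact_mod_cast fin_bad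
  push_cast at h5
  linarith

end Pool.Agent.Results.MP_68af1b_co.NonReal
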